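import Pool.Agent.Helper41.LD4.Defs
import Pool.Agent.Helper5.LD3.LIN

/-!
# Project LD4, blocks L1 and L2: linear sequences, windows and correlations of distant frequencies
-/

set_option autoImplicit false

namespace Pool.Agent.Helper5.LD4

open Set MeasureTheory Filter Topology
open Pool.Agent.Helper41.LD (av var haar)
open Pool.Agent.Helper41.LD2 (EqA)
open Pool.Agent.Helper41.LD3 (lin Geo)
open Pool.Agent.Helper41.LD4 (Wd Fn)
open Pool.Agent.Helper5.LD3 (geo_le' one_div_le)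

variable {y c : ℕ → ℝ} {β : ℝ} {N₀ N₀' m m' : ℕ} {w w' : ℝ} {f f' : ℝ → ℝ}

/-- the integral of a test function along a line -/
theorem int_lin (hf : Fn N₀ m w f) {s d : ℝ} (hs : 0 < s) (p q : ℝ) : |∫ x in p..q, f (s * x + d)| ≤ w / s := by
  rw [intervalIntegral.integral_comp_mul_add (fun t => f t) hs.ne' d, smul_eq_mul, abs_mul, abs_of_pos (inv_pos.2 hs),
    div_eq_inv_mul]
  exact mul_le_mul_of_nonneg_left (hf.prim _ _) (inv_pos.2 hs).le

/-- the integral of the product of two test functions along lines -/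
theorem int_pair (hf : Fn N₀ m w f) (hf' : Fn N₀' m' w' f') {s q d d' a ℓ : ℝ} (hs : 0 < s) (hq : 0 < q) (hℓ : 0 < ℓ) :
    |∫ x in a..(a + ℓ), f (s * x + d) * f' (q * x + d')| ≤ m * w' * (s * ℓ + 2) / q := by
  have hqs : 0 < q / s := div_pos hq hs
  have hgm : Measurable fun t => f' (q / s * t + (d' - q / s * d)) :=
    hf'.meas.comp ((measurable_const_mul (q / s)).add_const _)
  have hp := hf.piece (fun t => f' (q / s * t + (d' - q / s * d))) (w' / (q / s)) hgm (fun x => hf'.bdd _)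
    (fun p r => int_lin hf' hqs p r) (s * a + d) (s * (a + ℓ) + d) (by nlinarith)
  have e : ∫ x in a..(a + ℓ), f (s * x + d) * f' (q * x + d') =
      s⁻¹ * ∫ t in (s * a + d)..(s * (a + ℓ) + d), f t * f' (q / s * t + (d' - q / s * d)) := by
    have h1 := intervalIntegral.integral_comp_mul_add (a := a) (b := a + ℓ)
      (fun t => f t * f' (q / s * t + (d' - q / s * d))) hs.ne' d
    rw [smul_eq_mul] at h1
    rw [← h1]
    refine intervalIntegral.integral_congr fun x _ => ?_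
    show f (s * x + d) * f' (q * x + d') = f (s * x + d) * f' (q / s * (s * x + d) + (d' - q / s * d))
    have h2 : q / s * (s * x + d) + (d' - q / s * d) = q * x + d' := by
      field_simp
      ring
    rw [h2]
  rw [e, abs_mul, abs_of_pos (inv_pos.2 hs)]
  refine (mul_le_mul_of_nonneg_left hp (inv_pos.2 hs).le).trans (le_of_eq ?_)
  have h3 := hs.ne'
  have h4 := hq.ne'
  field_simp
  ring

/-- L1 -/
theorem lin_Wd4 (hf : Fn N₀ m w f) (hm : 1 ≤ m) (hw : 0 ≤ w) (hy : Geo y β) {n : ℕ} {a ℓ : ℝ} (hℓ : 0 < ℓ) (hn : 1 ≤ y n * ℓ) :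
    Wd (fun j x => f (lin y c j x)) β (3 * m * w) n a ℓ := by
  have hβ : 1 < β := hy.hβ
  have hm' : (1 : ℝ) ≤ m := by exact_mod_cast hm
  have hmw : w ≤ 3 * m * w := by nlinarith
  refine ⟨hℓ, hβ, by positivity, fun j => ?_, fun j x => hf.bdd _, fun j hj => ?_, fun j₁ j₂ h1 h2 => ?_⟩
  · exact hf.meas.comp ((measurable_const_mul (y j)).add_const (c j))
  · have h1 := int_lin (d := c j) hf (hy.pos j) a (a + ℓ)
    have h2 := one_div_le hy hj hn
    refine h1.trans ?_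
    have h3 : 0 ≤ β⁻¹ ^ (j - n) * ℓ := by positivity
    calc w / y j = w * (1 / y j) := by ring
      _ ≤ w * (β⁻¹ ^ (j - n) * ℓ) := mul_le_mul_of_nonneg_left h2 hw
      _ ≤ 3 * m * w * (β⁻¹ ^ (j - n) * ℓ) := mul_le_mul_of_nonneg_right hmw h3
      _ = 3 * m * w * β⁻¹ ^ (j - n) * ℓ := by ring
  · have h3 := int_pair (d := c j₁) (d' := c j₂) (a := a) hf hf (hy.pos j₁) (hy.pos j₂) hℓ
    refine h3.trans ?_
    have h4 : 1 ≤ y j₁ * ℓ := by
      have h5 := one_div_le hy h1 hn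
      have hp : (β⁻¹ : ℝ) ^ (j₁ - n) ≤ 1 := pow_le_one₀ (by positivity) (inv_le_one_of_one_le₀ hβ.le)
      have h6 : 1 / y j₁ ≤ ℓ := h5.trans (mul_le_of_le_one_left hℓ.le hp)
      rw [div_le_iff₀ (hy.pos _)] at h6
      linarith
    have h5 := geo_le' hy h2
    have h6 := hy.pos j₂
    have h7 : (0 : ℝ) ≤ 3 * m * w * ℓ := by positivity
    calc m * w * (y j₁ * ℓ + 2) / y j₂ ≤ m * w * (3 * (y j₁ * ℓ)) / y j₂ := by
          gcongr
          linarith
      _ = 3 * m * w * ℓ * (y j₁ / y j₂) := by ring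
      _ ≤ 3 * m * w * ℓ * β⁻¹ ^ (j₂ - j₁) := mul_le_mul_of_nonneg_left h5 h7
      _ = 3 * m * w * β⁻¹ ^ (j₂ - j₁) * ℓ := by ring

/-- L2: the first one slower -/
theorem corr_far (hf : Fn N₀ m w f) (hf' : Fn N₀' m' w' f') {s q d d' a ℓ : ℝ} (hs : 0 < s) (hq : 0 < q) (hℓ : 0 < ℓ) :
    |av (fun x => f (s * x + d) * f' (q * x + d')) a ℓ| ≤ m * w' * (s * ℓ + 2) / (q * ℓ) := by
  have h1 := int_pair (d := d) (d' := d') (a := a) hf hf' hs hq hℓ
  unfold av
  rw [abs_div, abs_of_pos hℓ, div_le_iff₀ hℓ]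
  refine h1.trans (le_of_eq ?_)
  have h3 := hℓ.ne'
  have h4 := hq.ne'
  field_simp

end Pool.Agent.Helper5.LD4
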